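import Pool.Agent.H52.MG.Basic
import Pool.Agent.H52.MG.Targets

/-!
# ALD: extraction of the data of a chain
-/

set_option autoImplicit false

noncomputable section

open Classical

namespace Pool.Agent.H97.MG

open Pool.Agent.H52.MG

/-- a class of degree two with a given leaving edge -/
lemma deg_two {V : Type} [Fintype V] (G : SimpleGraph V) (c : V → V) (a b : V)
    (h : G.Adj a b) (hc : c a ≠ c b) (hd : dgc G c a = 2) :
    ∃ x s, c x = c a ∧ c s ≠ c a ∧ G.Adj x s ∧ ¬ (x = a ∧ s = b) ∧
      ∀ u w, c u = c a → c w ≠ c a → G.Adj u w → (u = a ∧ w = b) ∨ (u = x ∧ w = s) := by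
  unfold dgc at hd
  rw [Finset.card_eq_two] at hd
  obtain ⟨P, Q, hPQ, hS⟩ := hd
  have mem : ∀ z : V × V, (c z.1 = c a ∧ c z.2 ≠ c a ∧ G.Adj z.1 z.2) ↔ (z = P ∨ z = Q) := by
    intro z
    have := Finset.ext_iff.mp hS z
    simpa only [Finset.mem_filter, Finset.mem_univ, true_and, Finset.mem_insert,
      Finset.mem_singleton] using this
  have hab := (mem (a, b)).mp ⟨rfl, hc.symm, h⟩
  rcases hab with hab | hab
  · obtain ⟨h1, h2, h3⟩ := (mem Q).mpr (Or.inr rfl)
    refine ⟨Q.1, Q.2, h1, h2, h3, ?_, ?_⟩
    · rintro ⟨k1, k2⟩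
      exact hPQ (by rw [← hab, ← k1, ← k2])
    · intro u w hu hw huw
      rcases (mem (u, w)).mp ⟨hu, hw, huw⟩ with k | k
      · rw [← hab] at k
        exact Or.inl ⟨congrArg Prod.fst k, congrArg Prod.snd k⟩
      · exact Or.inr ⟨congrArg Prod.fst k, congrArg Prod.snd k⟩
  · obtain ⟨h1, h2, h3⟩ := (mem P).mpr (Or.inl rfl)
    refine ⟨P.1, P.2, h1, h2, h3, ?_, ?_⟩
    · rintro ⟨k1, k2⟩
      exact hPQ (by rw [← hab, ← k1, ← k2])
    · intro u w hu hw huw
      rcases (mem (u, w)).mp ⟨hu, hw, huw⟩ with k | k
      · exact Or.inr ⟨congrArg Prod.fst k, congrArg Prod.snd k⟩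
      · rw [← hab] at k
        exact Or.inl ⟨congrArg Prod.fst k, congrArg Prod.snd k⟩

theorem ald : T_ALD := by
  intro V _ G c a b hT hab hc ha hb
  obtain ⟨x, s, hx, hs, hxs, hne, hX⟩ := deg_two G c a b hab hc ha
  obtain ⟨y, t, hy, ht, hyt, hne', hY⟩ := deg_two G c b a hab.symm hc.symm hb
  by_cases hsb : c s = c b
  · left
    have hsx := hY s x hsb (by rw [hx]; exact hc) hxs.symm
    have hyts : y = s ∧ t = x := by
      rcases hsx with k | k
      · exact absurd ⟨k.2, k.1⟩ hne
      · exact ⟨k.1.symm, k.2.symm⟩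
    obtain ⟨rfl, rfl⟩ := hyts
    refine ⟨a, b, t, y, hx, hy, hc, hab, hxs, fun k => hne ⟨k.1.symm, k.2.symm⟩, hX, ?_⟩
    by_contra hcon
    push Not at hcon
    obtain ⟨v, hv1, hv2⟩ := hcon
    have hav : a ≠ v := fun h => hv1 (by rw [h])
    let d : V → V := fun z => if c z = c a ∨ c z = c b then a else v
    have hdc : Coarse c d := by
      intro u w h
      simp only [d, h]
    have hpt : pt d = 2 := by
      unfold pt
      have : Finset.univ.image d = {a, v} := by
        ext z
        simp only [Finset.mem_image, Finset.mem_univ, true_and, Finset.mem_insert,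
          Finset.mem_singleton]
        constructor
        · rintro ⟨w, rfl⟩
          by_cases k : c w = c a ∨ c w = c b
          · exact Or.inl (if_pos k)
          · exact Or.inr (if_neg k)
        · rintro (h | h)
          · exact ⟨a, by rw [h]; simp [d]⟩
          · exact ⟨v, by rw [h]; simp [d, hv1, hv2]⟩
      rw [this]
      exact Finset.card_pair hav
    have hcr : cr2 G d = 0 := by
      unfold cr2
      rw [Finset.card_eq_zero, Finset.filter_eq_empty_iff]
      rintro ⟨u, w⟩ _ ⟨h1, h2⟩
      simp only at h1 h2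
      have key : ∀ u w, G.Adj u w → (c u = c a ∨ c u = c b) → (c w = c a ∨ c w = c b) := by
        intro u w h k
        by_contra hw
        push Not at hw
        rcases k with k | k
        · rcases hX u w k hw.1 h with m | m
          · exact hw.2 (by rw [m.2])
          · exact hw.2 (by rw [m.2, hy])
        · rcases hY u w k hw.2 h with m | m
          · exact hw.1 (by rw [m.2])
          · exact hw.1 (by rw [m.2, hx])
      apply h2
      simp only [d]
      by_cases k : c u = c a ∨ c u = c b
      · rw [if_pos k, if_pos (key u w h1 k)]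
      · rw [if_neg k, if_neg (fun m => k (key w u h1.symm m))]
    have := Tt_all hT d hdc (by rw [hpt])
    unfold s2 at this
    rw [hpt, hcr] at this
    norm_num at this
  · right
    have hta : c t ≠ c a := by
      intro k
      rcases hX t y k (by rw [hy]; exact hc.symm) hyt.symm with m | m
      · exact hne' ⟨m.2, m.1⟩
      · exact hsb (by rw [← m.2, hy])
    refine ⟨s, x, a, y, b, t, ?_⟩
    exact
      { cx := hx.symm
        cy := hy.symm
        xy := by rw [hx, hy]; exact hc
        sx := by rw [hx]; exact hs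
        sy := by rw [hy]; exact hsb
        tx := by rw [hx]; exact hta
        ty := by rw [hy]; exact ht
        e1 := hxs
        e2 := hab
        e3 := hyt
        oX := by
          intro u w hu hw h
          rw [hx] at hu hw
          exact (hX u w hu hw h).symm
        oY := by
          intro u w hu hw h
          rw [hy] at hu hw
          exact (hY u w hu hw h).symm }

end Pool.Agent.H97.MG
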