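import Pool.Agent.H52.MG.Basic
import Pool.Agent.H52.MG.Targets

/-!
# LB, B3, N2A
-/

set_option autoImplicit false

noncomputable section

open Classical Module
open scoped Matrix

namespace Pool.Agent.H97.MG

open Pool.Agent.H52.MG

/-! ### B3 -/

theorem b3 : T_B3 := by
  intro V _ G d h5 hC hL v
  by_contra hlt
  push Not at hlt
  have hfin : (Bd G d v).Finite := Set.toFinite _
  by_cases hout : ∃ u w, d u = d v ∧ d w ≠ d v ∧ G.Adj u w
  · obtain ⟨u, w, hu, hw, huw⟩ := hout
    have huB : u ∈ Bd G d v := Or.inl hu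
    have hwB : w ∈ Bd G d v := Or.inr ⟨u, huw.symm, hu⟩
    have hne : u ≠ w := fun h => hw (by rw [← h, hu])
    have hB : Bd G d v = {u, w} := by
      symm
      apply Set.eq_of_subset_of_ncard_le
      · intro z hz
        rcases hz with rfl | hz
        · exact huB
        · rw [Set.mem_singleton_iff] at hz; rw [hz]; exact hwB
      · rw [Set.ncard_pair hne]; omega
      · exact hfin
    have := hL u w huw (by
      intro z hz
      have hzB : z ∈ Bd G d v := Or.inr ⟨u, hz.symm, hu⟩
      rw [hB] at hzB
      rcases hzB with rfl | hzB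
      · exact absurd hz (G.loopless.1 _)
      · exact hzB)
    exact hw (by rw [← this, hu])
  · push Not at hout
    have hcl : ∀ u w, d u = d v → G.Adj u w → d w = d v := by
      intro u w hu huw
      by_contra hw
      exact hout u w hu hw huw
    have hcard : ({u | d u = d v} : Set V).ncard < Fintype.card V := by
      have : ({u | d u = d v} : Set V).ncard ≤ (Bd G d v).ncard :=
        Set.ncard_le_ncard (fun u hu => Or.inl hu) hfin
      omega
    have hcomp : ({u | d u ≠ d v} : Set V).Nonempty := by
      by_contra he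
      rw [Set.not_nonempty_iff_eq_empty] at he
      have : ({u | d u = d v} : Set V) = Set.univ := by
        ext z
        simp only [Set.mem_setOf_eq, Set.mem_univ, iff_true]
        by_contra hz
        have : z ∈ ({u | d u ≠ d v} : Set V) := hz
        rw [he] at this
        exact this
      rw [this, Set.ncard_univ, Nat.card_eq_fintype_card] at hcard
      exact lt_irrefl _ hcard
    obtain ⟨x, hx, y, hy, hxy⟩ := hC ∅ {u | d u = d v} {u | d u ≠ d v}
      (fun z => by
        by_cases h : d z = d v
        · exact Or.inr (Or.inl h)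
        · exact Or.inr (Or.inr h))
      (by
        rw [Set.disjoint_left]
        intro z h1 h2
        exact h2 h1)
      (Set.empty_disjoint _) (Set.empty_disjoint _) ⟨v, rfl⟩ hcomp (by simp)
    apply hy
    rcases hxy.2 with h | ⟨z, h1, h2⟩
    · exact hcl x y hx h
    · exact hcl z y (hcl x z hx h1) h2

/-! ### N2A -/

/-- velocities of the atoms -/
def vel {V : Type} [Fintype V] (p : V → Vec) : (V → Scr) →ₗ[ℝ] (V → Vec) where
  toFun S := fun x => ev (S x) (p x)
  map_add' S T := by funext x; simp only [Pi.add_apply, ev_add]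
  map_smul' r S := by funext x; simp only [Pi.smul_apply, ev_smul, RingHom.id_apply]

lemma cross_dot_self (a b : Vec) : (a ⨯₃ b) ⬝ᵥ b = 0 := by
  rw [dot3, cross_eq]
  simp only [Matrix.cons_val]
  ring

theorem n2a (hGP : T_GP) : T_N2A := by
  intro V _ G d p hp h3
  obtain ⟨gp1, gp2, gp3⟩ := hGP V p hp
  have hmap : ∀ S ∈ Mot G d p, vel p S ∈ infMot (sq G) p := by
    intro S hS u w huw
    obtain ⟨hc, he⟩ := mem_Mot.mp hS
    simp only [vel, LinearMap.coe_mk, AddHom.coe_mk]
    rcases huw.2 with h | ⟨z, h1, h2⟩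
    · rw [he u w h, ev_sub_ev, cross_dot_self]
    · rw [he u z h1, he w z h2.symm, ev_sub_ev, cross_dot_self]
  let f : Mot G d p →ₗ[ℝ] infMot (sq G) p := (vel p).restrict hmap
  apply LinearMap.finrank_le_finrank_of_injective (f := f)
  rw [← LinearMap.ker_eq_bot, LinearMap.ker_eq_bot']
  rintro ⟨S, hS⟩ h0
  obtain ⟨hc, he⟩ := mem_Mot.mp hS
  have hz : ∀ x, ev (S x) (p x) = 0 := by
    intro x
    have := congrArg (fun T : infMot (sq G) p => (T : V → Vec) x) h0
    exact this
  apply Subtype.ext
  funext v
  change S v = 0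
  have hB : ∀ x ∈ Bd G d v, ev (S v) (p x) = 0 := by
    intro x hx
    rcases hx with hx | ⟨w, hw, hwv⟩
    · rw [← hc x v hx]; exact hz x
    · rw [← hc w v hwv, ← he x w hw]; exact hz x
  obtain ⟨a, ha, b, hb, e, hee, hab, hae, hbe⟩ := (Set.two_lt_ncard (Set.toFinite _)).mp (h3 v)
  exact scr_three (S v) (p a) (p b) (p e) (gp2 a b e hab hae hbe) (hB a ha) (hB b hb) (hB e hee)

/-! ### LB -/

/-- assignments which are constant on the classes -/
def Cst {V : Type} [Fintype V] (d : V → V) : Submodule ℝ (V → Scr) where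
  carrier := {S | ∀ u w, d u = d w → S u = S w}
  add_mem' := by
    intro a b ha hb u w h
    simp only [Pi.add_apply, ha u w h, hb u w h]
  zero_mem' := by intro u w _; rfl
  smul_mem' := by
    intro r a ha u w h
    simp only [Pi.smul_apply, ha u w h]

lemma finrank_Cst {V : Type} [Fintype V] (d : V → V) : 6 * pt d ≤ finrank ℝ (Cst d) := by
  let I : Type := (Finset.univ.image d : Finset V)
  let g : (I → Scr) →ₗ[ℝ] (V → Scr) :=
    { toFun := fun T v => T ⟨d v, Finset.mem_image_of_mem _ (Finset.mem_univ _)⟩
      map_add' := fun _ _ => rfl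
      map_smul' := fun _ _ => rfl }
  have hg : Function.Injective g := by
    intro T T' h
    funext ⟨i, hi⟩
    obtain ⟨v, _, rfl⟩ := Finset.mem_image.mp hi
    exact congrFun h v
  have hr : LinearMap.range g ≤ Cst d := by
    rintro _ ⟨T, rfl⟩ u w h
    simp only [g, LinearMap.coe_mk, AddHom.coe_mk, h]
  have h1 := Submodule.finrank_mono hr
  rw [LinearMap.finrank_range_of_inj hg] at h1
  have h2 : finrank ℝ (I → Scr) = 6 * pt d := by
    rw [Module.finrank_pi_fintype]
    simp only [finrank_scr, Finset.sum_const, Finset.card_univ, smul_eq_mul]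
    have : Fintype.card I = pt d := by
      simp only [I, Fintype.card_coe]
      rfl
    rw [this, mul_comm]
  omega

/-- the two conditions of an edge -/
def edg {V : Type} [Fintype V] (p : V → Vec) (x : V × V) : (V → Scr) →ₗ[ℝ] Vec × Vec where
  toFun S := (ev (S x.1 - S x.2) (p x.1), ev (S x.1 - S x.2) (p x.2))
  map_add' S T := by
    simp only [Pi.add_apply, Prod.mk_add_mk]
    rw [add_sub_add_comm, ev_add, ev_add]
  map_smul' r S := by
    simp only [Pi.smul_apply, RingHom.id_apply, Prod.smul_mk]
    rw [← smul_sub, ev_smul, ev_smul]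

/-- the same as a map on screws -/
def two (a b : Vec) : Scr →ₗ[ℝ] Vec × Vec where
  toFun T := (ev T a, ev T b)
  map_add' S T := by rw [ev_add, ev_add]; rfl
  map_smul' r S := by rw [ev_smul, ev_smul]; rfl

lemma two_rank (a b : Vec) : finrank ℝ (LinearMap.range (two a b)) ≤ 5 := by
  have h := LinearMap.finrank_range_add_finrank_ker (two a b)
  rw [finrank_scr] at h
  have hk : 1 ≤ finrank ℝ (LinearMap.ker (two a b)) := by
    rw [Nat.one_le_iff_ne_zero, ne_eq, Submodule.finrank_eq_zero]
    intro hb
    by_cases hab : a = b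
    · -- any rotation about `a`
      subst hab
      let q : Vec := fun i => a i + 1
      have hq : a ≠ q := by
        intro h
        have := congrFun h 0
        simp [q] at this
      have hm : lin a q ∈ LinearMap.ker (two a a) := by
        rw [LinearMap.mem_ker]
        change (ev (lin a q) a, ev (lin a q) a) = 0
        rw [ev_lin_left]
        rfl
      rw [hb, Submodule.mem_bot] at hm
      exact lin_ne_zero a q hq hm
    · have hm : lin a b ∈ LinearMap.ker (two a b) := by
        rw [LinearMap.mem_ker]
        change (ev (lin a b) a, ev (lin a b) b) = 0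
        rw [ev_lin_left, ev_lin_right]
        rfl
      rw [hb, Submodule.mem_bot] at hm
      exact lin_ne_zero a b hab hm
  omega

lemma edg_rank {V : Type} [Fintype V] (p : V → Vec) (x : V × V) :
    finrank ℝ (LinearMap.range (edg p x)) ≤ 5 := by
  have : LinearMap.range (edg p x) ≤ LinearMap.range (two (p x.1) (p x.2)) := by
    rintro _ ⟨S, rfl⟩
    exact ⟨S x.1 - S x.2, rfl⟩
  exact (Submodule.finrank_mono this).trans (two_rank _ _)

lemma step {W : Type} [AddCommGroup W] [Module ℝ W] [FiniteDimensional ℝ W]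
    (A : Submodule ℝ W) (φ : W →ₗ[ℝ] Vec × Vec)
    (h : finrank ℝ (LinearMap.range φ) ≤ 5) :
    finrank ℝ A ≤ finrank ℝ (A ⊓ LinearMap.ker φ : Submodule ℝ W) + 5 := by
  have h1 := LinearMap.finrank_range_add_finrank_ker (φ.domRestrict A)
  have h2 : finrank ℝ (LinearMap.range (φ.domRestrict A)) ≤ 5 := by
    refine le_trans (Submodule.finrank_mono ?_) h
    rintro _ ⟨x, rfl⟩
    exact ⟨x, rfl⟩
  have h3 : (LinearMap.ker (φ.domRestrict A)).map A.subtype ≤ A ⊓ LinearMap.ker φ := by
    rintro _ ⟨x, hx, rfl⟩
    exact ⟨x.2, hx⟩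
  have h4 := Submodule.finrank_mono h3
  rw [Submodule.finrank_map_subtype_eq] at h4
  omega

lemma many {V : Type} [Fintype V] (p : V → Vec) (A : Submodule ℝ (V → Scr))
    (s : Finset (V × V)) :
    ∃ B : Submodule ℝ (V → Scr), B ≤ A ∧ (∀ x ∈ s, B ≤ LinearMap.ker (edg p x)) ∧
      finrank ℝ A ≤ finrank ℝ B + 5 * s.card := by
  induction s using Finset.induction_on with
  | empty => exact ⟨A, le_rfl, fun x hx => absurd hx (Finset.notMem_empty x), by simp⟩
  | insert x s hx ih =>
    obtain ⟨B, hBA, hB, hr⟩ := ih
    refine ⟨B ⊓ LinearMap.ker (edg p x), inf_le_left.trans hBA, ?_, ?_⟩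
    · intro y hy
      rcases Finset.mem_insert.mp hy with rfl | hy
      · exact inf_le_right
      · exact inf_le_left.trans (hB y hy)
    · have := step B (edg p x) (edg_rank p x)
      rw [Finset.card_insert_of_notMem hx]
      omega

theorem lb : T_LB := by
  intro V _ G d p
  let f : V → ℕ := fun v => (Fintype.equivFin V v : ℕ)
  have hf : Function.Injective f := fun a b h =>
    (Fintype.equivFin V).injective (Fin.ext h)
  let P : Finset (V × V) := Finset.univ.filter (fun x => G.Adj x.1 x.2 ∧ d x.1 ≠ d x.2)
  let P1 := P.filter (fun x => f x.1 < f x.2)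
  have hP : P.card = 2 * P1.card := by
    have h1 := Finset.card_filter_add_card_filter_not (s := P) (fun x => f x.1 < f x.2)
    have h1' : P1.card + (P.filter (fun x => ¬ f x.1 < f x.2)).card = P.card := by
      rw [← h1]
    have h2 : (P.filter (fun x => ¬ f x.1 < f x.2)).card = P1.card := by
      apply Finset.card_bij (fun x _ => (x.2, x.1))
      · rintro ⟨u, w⟩ h
        simp only [P1, P, Finset.mem_filter, Finset.mem_univ, true_and] at h ⊢
        obtain ⟨⟨h1, h2⟩, h3⟩ := h
        refine ⟨⟨h1.symm, h2.symm⟩, ?_⟩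
        have : f u ≠ f w := fun k => h2 (by rw [hf k])
        omega
      · rintro ⟨u, w⟩ _ ⟨u', w'⟩ _ h
        simp only [Prod.mk.injEq] at h ⊢
        exact ⟨h.2, h.1⟩
      · rintro ⟨u, w⟩ h
        simp only [P1, P, Finset.mem_filter, Finset.mem_univ, true_and] at h
        obtain ⟨⟨h1, h2⟩, h3⟩ := h
        refine ⟨(w, u), ?_, rfl⟩
        simp only [P, Finset.mem_filter, Finset.mem_univ, true_and]
        exact ⟨⟨h1.symm, h2.symm⟩, by omega⟩
    omega
  obtain ⟨B, hBA, hB, hr⟩ := many p (Cst d) P1
  have hBM : B ≤ Mot G d p := by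
    intro S hS
    rw [mem_Mot]
    have hc : ∀ u w, d u = d w → S u = S w := hBA hS
    refine ⟨hc, ?_⟩
    intro u w huw
    by_cases hd : d u = d w
    · rw [hc u w hd]
    · have hne : f u ≠ f w := fun k => hd (by rw [hf k])
      rcases lt_or_gt_of_ne hne with hlt | hlt
      · have hx : (u, w) ∈ P1 := by
          simp only [P1, P, Finset.mem_filter, Finset.mem_univ, true_and]
          exact ⟨⟨huw, hd⟩, hlt⟩
        have := hB _ hx hS
        rw [LinearMap.mem_ker] at this
        have h1 : ev (S u - S w) (p u) = 0 := congrArg Prod.fst this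
        rw [ev_sub] at h1
        exact sub_eq_zero.mp h1
      · have hx : (w, u) ∈ P1 := by
          simp only [P1, P, Finset.mem_filter, Finset.mem_univ, true_and]
          exact ⟨⟨huw.symm, fun k => hd k.symm⟩, hlt⟩
        have := hB _ hx hS
        rw [LinearMap.mem_ker] at this
        have h1 : ev (S w - S u) (p u) = 0 := congrArg Prod.snd this
        rw [ev_sub] at h1
        exact (sub_eq_zero.mp h1).symm
  have h1 := Submodule.finrank_mono hBM
  have h2 := finrank_Cst d
  have h3 : cr2 G d = P.card := rfl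
  rw [h3, hP]
  push_cast
  omega

end Pool.Agent.H97.MG
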