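import Pool.Agent.H52.MG.Basic
import Pool.Agent.H52.MG.Targets

/-!
# MG2 and MG3: two and three classes
-/

set_option autoImplicit false

noncomputable section

open Classical Module
open scoped Matrix

namespace Pool.Agent.H97.MG

open Pool.Agent.H52.MG

theorem mg2 (hGP : T_GP) : T_MG2 := by
  intro V _ G c p a u b w hp hb hw hau e1 e2 hne hall
  obtain ⟨gp1, gp2, gp3⟩ := hGP V p hp
  have hau' : a ≠ u := fun h => hau (by rw [h])
  have hbw' : b ≠ w := fun h => hau (by rw [← hb, ← hw, h])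
  have haw' : a ≠ w := fun h => hau (by rw [← hw, h])
  have hbu' : b ≠ u := fun h => hau (by rw [← hb, h])
  apply finrank_le_six
  intro S hS
  obtain ⟨r1, hr1⟩ := Mot_edge hS e1 (gp1 _ _ hau')
  obtain ⟨r2, hr2⟩ := Mot_edge hS e2 (gp1 _ _ hbw')
  have hSc := (mem_Mot.mp hS).1
  have hba : S b = S a := hSc _ _ hb
  have hwu : S w = S u := hSc _ _ hw
  have key : S a - S u = 0 := by
    by_cases hab : a = b
    · have huw : u ≠ w := fun h => hne ⟨hab, h⟩
      subst hab
      rw [hwu, hr1] at hr2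
      have h := congrArg (fun T => ev T (p w)) hr2
      simp only [ev_smul, ev_lin_right, smul_zero] at h
      rw [ev_lin] at h
      rcases smul_eq_zero.mp h with h0 | h0
      · rw [hr1, h0, zero_smul]
      · exfalso
        refine gp2 u a w hau'.symm huw haw' ?_
        have : (p a - p u) ⨯₃ (p w - p u) = -((p u - p a) ⨯₃ (p w - p u)) := by
          apply vec_ext <;> simp only [cross_eq, Pi.neg_apply, Pi.sub_apply, Matrix.cons_val] <;> ring
        rw [this, h0, neg_zero]
    · rw [hba, hwu, hr1] at hr2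
      have h := congrArg (fun T => ev T (p b)) hr2
      simp only [ev_smul, ev_lin_left, smul_zero] at h
      rw [ev_lin] at h
      rcases smul_eq_zero.mp h with h0 | h0
      · rw [hr1, h0, zero_smul]
      · exfalso
        refine gp2 u a b hau'.symm hbu'.symm hab ?_
        have : (p a - p u) ⨯₃ (p b - p u) = -((p u - p a) ⨯₃ (p b - p u)) := by
          apply vec_ext <;> simp only [cross_eq, Pi.neg_apply, Pi.sub_apply, Matrix.cons_val] <;> ring
        rw [this, h0, neg_zero]
  have hSau : S a = S u := sub_eq_zero.mp key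
  have hval : ∀ v, S v = S a := by
    intro v
    rcases hall v with h | h
    · exact hSc _ _ h
    · rw [hSc _ _ h, ← hSau]
  intro x y
  rw [hval x, hval y]

/-- three non collinear points -/
def P1 : Vec := ![0, 0, 0]
def P2 : Vec := ![1, 0, 0]
def P3 : Vec := ![0, 1, 0]

theorem mg3 (hGS : T_GS) : T_MG3 := by
  intro V _ G c p a1 b1 b2 e2 e3 a3 hp ha hb he hab hbe hae g1 g2 g3 hall
  -- the special position
  let p0 : V → Vec := fun v => if c v = c a1 then P1 else if c v = c b1 then P2 else P3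
  refine (hGS V _ _ _ p p0 hp).trans ?_
  change finrank ℝ (Mot G c p0) ≤ 6
  apply finrank_le_six
  intro S hS
  have hSc := (mem_Mot.mp hS).1
  have q1 : ∀ v, c v = c a1 → p0 v = P1 := fun v h => by simp [p0, h]
  have q2 : ∀ v, c v = c b1 → p0 v = P2 := fun v h => by simp [p0, h, hab.symm]
  have q3 : ∀ v, c v = c e2 → p0 v = P3 := fun v h => by simp [p0, h, hae.symm, hbe.symm]
  have n12 : P1 ≠ P2 := fun h => by have := congrFun h 0; simp [P1, P2] at this
  have n23 : P2 ≠ P3 := fun h => by have := congrFun h 0; simp [P2, P3] at this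
  have n31 : P3 ≠ P1 := fun h => by have := congrFun h 1; simp [P1, P3] at this
  obtain ⟨r1, h1⟩ := Mot_edge hS g1 (by rw [q1 a1 rfl, q2 b1 rfl]; exact n12)
  obtain ⟨r2, h2⟩ := Mot_edge hS g2 (by rw [q2 b2 hb, q3 e2 rfl]; exact n23)
  obtain ⟨r3, h3⟩ := Mot_edge hS g3 (by rw [q3 e3 he, q1 a3 ha]; exact n31)
  rw [q1 a1 rfl, q2 b1 rfl] at h1
  rw [q2 b2 hb, q3 e2 rfl, hSc b2 b1 hb] at h2
  rw [q3 e3 he, q1 a3 ha, hSc e3 e2 he, hSc a3 a1 ha] at h3
  have hsum : r1 • lin P1 P2 + r2 • lin P2 P3 + r3 • lin P3 P1 = 0 := by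
    rw [← h1, ← h2, ← h3]; abel
  have hA := congrArg Prod.fst hsum
  have hB := congrArg Prod.snd hsum
  simp only [lin, Prod.fst_add, Prod.snd_add, Prod.smul_fst, Prod.smul_snd, Prod.fst_zero,
    Prod.snd_zero, cross_eq] at hA hB
  have hA0 := congrFun hA 0
  have hA1 := congrFun hA 1
  have hB2 := congrFun hB 2
  simp only [Pi.add_apply, Pi.smul_apply, Pi.sub_apply, smul_eq_mul, Pi.zero_apply, P1, P2, P3,
    Matrix.cons_val] at hA0 hA1 hB2
  have hr2 : r2 = 0 := by linarith
  have hr1 : r1 = 0 := by linarith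
  have hr3 : r3 = 0 := by linarith
  rw [hr1, zero_smul] at h1
  rw [hr2, zero_smul] at h2
  have e12 : S b1 = S a1 := (sub_eq_zero.mp h1).symm
  have e23 : S e2 = S b1 := (sub_eq_zero.mp h2).symm
  have hval : ∀ v, S v = S a1 := by
    intro v
    rcases hall v with h | h | h
    · exact hSc _ _ h
    · rw [hSc _ _ h, e12]
    · rw [hSc _ _ h, e23, e12]
  intro x y
  rw [hval x, hval y]

end Pool.Agent.H97.MG
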